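import Pool.Agent.N550.SQ.Stm

set_option autoImplicit false

/-! # Project SQ, part DIFF (helper434)

Almost all translates of a smooth 2-disc in the 4-space miss a given set of two-dimensional
Hausdorff measure zero. -/

open Set Filter Topology Metric MeasureTheory
open scoped NNReal ENNReal

namespace Pool.Agent.N550.SQ.Diff

open Pool.Agent.Y522 Pool.Agent.N550.SQ

/-- the translations which move a point of the disc into `U` -/
def TT (U : Set (E 4)) (D : Set (E 2)) (j : E 2 → E 4) : Set (E 4) :=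
  {v : E 4 | ∃ s ∈ D, j s + v ∈ U}

/-- a cell of the grid of size `d` -/
def cell (D : Set (E 2)) (d : ℝ) (c : ℤ × ℤ) : Set (E 2) :=
  {s | s ∈ D ∧ ⌊s 0 / d⌋ = c.1 ∧ ⌊s 1 / d⌋ = c.2}

/-- points of the same cell are close -/
theorem cell_dist {D : Set (E 2)} {d : ℝ} (hd : 0 < d) {c : ℤ × ℤ} {s s' : E 2}
    (hs : s ∈ cell D d c) (hs' : s' ∈ cell D d c) : dist s s' ≤ 2 * d := by
  have key : ∀ i : Fin 2, ⌊s i / d⌋ = ⌊s' i / d⌋ → |s i - s' i| ≤ d := by
    intro i h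
    have h1 := Int.abs_sub_lt_one_of_floor_eq_floor h
    rw [← sub_div, abs_div, abs_of_pos hd, div_lt_one hd] at h1
    exact h1.le
  have h0 := key 0 (hs.2.1.trans hs'.2.1.symm)
  have h1 := key 1 (hs.2.2.trans hs'.2.2.symm)
  rw [EuclideanSpace.dist_eq, Fin.sum_univ_two]
  apply Real.sqrt_le_iff.2
  refine ⟨by positivity, ?_⟩
  rw [Real.dist_eq, Real.dist_eq]
  nlinarith [abs_nonneg (s 0 - s' 0), abs_nonneg (s 1 - s' 1)]

/-- the volume of the translations for a small set and a cell -/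
theorem cell_vol {K : ℝ≥0} {D : Set (E 2)} {j : E 2 → E 4} (hj : LipschitzOnWith K j D)
    {U : Set (E 4)} {d : ℝ} (hd : 0 < d) (hU : ∀ x ∈ U, ∀ y ∈ U, dist x y ≤ d) (c : ℤ × ℤ) :
    volume (TT U (cell D d c) j) ≤
      ENNReal.ofReal (((1 + 2 * K) * d) ^ 4) * volume (ball (0 : E 4) 1) := by
  rcases (TT U (cell D d c) j).eq_empty_or_nonempty with h0 | ⟨v0, s0, hs0, hv0⟩
  · rw [h0, measure_empty]
    exact bot_le
  have h1 : TT U (cell D d c) j ⊆ closedBall v0 ((1 + 2 * K) * d) := by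
    rintro v ⟨s, hs, hv⟩
    rw [mem_closedBall]
    have h2 := hU _ hv _ hv0
    have h3 := hj.dist_le_mul s0 hs0.1 s hs.1
    have h4 := cell_dist hd hs0 hs
    have h5 : v - v0 = (j s + v - (j s0 + v0)) + (j s0 - j s) := by abel
    rw [dist_eq_norm] at h2 h3 ⊢
    rw [h5]
    refine (norm_add_le _ _).trans ?_
    have h6 : (K : ℝ) * dist s0 s ≤ K * (2 * d) := mul_le_mul_of_nonneg_left h4 K.2
    linarith
  refine (measure_mono h1).trans ?_
  rw [Measure.addHaar_closedBall volume v0 (by positivity), finrank_euclideanSpace_fin]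

/-- the volume of the translations for a small set -/
theorem small_vol {K : ℝ≥0} {D : Set (E 2)} {j : E 2 → E 4} (hj : LipschitzOnWith K j D)
    {a : E 2} (hD : D ⊆ ball a 1)
    {U : Set (E 4)} {d : ℝ} (hd : 0 < d) (hd1 : d ≤ 1) (hU : ∀ x ∈ U, ∀ y ∈ U, dist x y ≤ d) :
    volume (TT U D j) ≤
      ENNReal.ofReal (16 * (1 + 2 * K) ^ 4 * d ^ 2) * volume (ball (0 : E 4) 1) := by
  obtain ⟨I, hI⟩ : ∃ I : Fin 2 → Finset ℤ, I = fun i =>
    Finset.Icc ⌊(a i - 1) / d⌋ ⌊(a i + 1) / d⌋ := ⟨_, rfl⟩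
  have hcard : ∀ i, ((I i).card : ℝ) ≤ 4 / d := by
    intro i
    rw [hI]
    simp only [Int.card_Icc]
    have h1 : ⌊(a i - 1) / d⌋ ≤ ⌊(a i + 1) / d⌋ := by
      apply Int.floor_le_floor
      gcongr
      linarith
    have h2 : ((⌊(a i + 1) / d⌋ + 1 - ⌊(a i - 1) / d⌋).toNat : ℝ) =
        (⌊(a i + 1) / d⌋ : ℝ) + 1 - ⌊(a i - 1) / d⌋ := by
      have : ((⌊(a i + 1) / d⌋ + 1 - ⌊(a i - 1) / d⌋).toNat : ℤ) =
          ⌊(a i + 1) / d⌋ + 1 - ⌊(a i - 1) / d⌋ := Int.toNat_of_nonneg (by omega)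
      exact_mod_cast this
    rw [h2]
    have h3 := Int.floor_le ((a i + 1) / d)
    have h4 := Int.lt_floor_add_one ((a i - 1) / d)
    have h5 : (a i + 1) / d - (a i - 1) / d = 2 / d := by ring
    have h6 : 2 ≤ 2 / d := by rw [le_div_iff₀ hd]; linarith
    have h7 : 4 / d = 2 / d + 2 / d := by ring
    linarith
  have hsub : TT U D j ⊆ ⋃ c ∈ I 0 ×ˢ I 1, TT U (cell D d c) j := by
    rintro v ⟨s, hs, hv⟩
    have h1 : ∀ i, ⌊s i / d⌋ ∈ I i := by
      intro i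
      have h2 : |s i - a i| < 1 := by
        have h3 : ‖(s - a) i‖ ≤ ‖s - a‖ := PiLp.norm_apply_le (s - a) i
        have h4 := hD hs
        rw [mem_ball, dist_eq_norm] at h4
        have h5 : (s - a) i = s i - a i := rfl
        rw [h5, Real.norm_eq_abs] at h3
        linarith
      rw [abs_lt] at h2
      rw [hI]
      simp only [Finset.mem_Icc]
      constructor
      · apply Int.floor_le_floor
        gcongr
        linarith
      · apply Int.floor_le_floor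
        gcongr
        linarith
    simp only [mem_iUnion]
    exact ⟨(⌊s 0 / d⌋, ⌊s 1 / d⌋), Finset.mem_product.2 ⟨h1 0, h1 1⟩, s, ⟨hs, rfl, rfl⟩, hv⟩
  refine (measure_mono hsub).trans ((measure_biUnion_finset_le _ _).trans ?_)
  refine (Finset.sum_le_sum fun c _ => cell_vol hj hd hU c).trans ?_
  rw [Finset.sum_const, Finset.card_product, nsmul_eq_mul, ← mul_assoc]
  gcongr
  have h1 : (((I 0).card * (I 1).card : ℕ) : ℝ≥0∞) =
      ENNReal.ofReal (((I 0).card : ℝ) * (I 1).card) := by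
    rw [← Nat.cast_mul, ENNReal.ofReal_natCast]
  rw [h1, ← ENNReal.ofReal_mul (by positivity)]
  apply ENNReal.ofReal_le_ofReal
  have h2 : ((I 0).card : ℝ) * (I 1).card ≤ 4 / d * (4 / d) :=
    mul_le_mul (hcard 0) (hcard 1) (Nat.cast_nonneg _) (by positivity)
  calc ((I 0).card : ℝ) * (I 1).card * ((1 + 2 * K) * d) ^ 4 ≤
      4 / d * (4 / d) * ((1 + 2 * K) * d) ^ 4 := by gcongr
    _ = 16 * (1 + 2 * K) ^ 4 * d ^ 2 := by
      field_simp
      ring

/-- in terms of the diameter -/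
theorem diam_vol {K : ℝ≥0} {D : Set (E 2)} {j : E 2 → E 4} (hj : LipschitzOnWith K j D)
    {a : E 2} (hD : D ⊆ ball a 1) {U : Set (E 4)} (hU : ediam U ≤ 1) :
    volume (TT U D j) ≤
      (ENNReal.ofReal (16 * (1 + 2 * K) ^ 4) * volume (ball (0 : E 4) 1)) * ediam U ^ (2 : ℝ) := by
  have hne : ediam U ≠ ⊤ := ne_top_of_le_ne_top ENNReal.one_ne_top hU
  obtain ⟨δ, hδ⟩ : ∃ δ : ℝ, δ = (ediam U).toReal := ⟨_, rfl⟩
  have hδ0 : 0 ≤ δ := by rw [hδ]; exact ENNReal.toReal_nonneg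
  have hδU : ediam U = ENNReal.ofReal δ := by rw [hδ, ENNReal.ofReal_toReal hne]
  have hδ1 : δ ≤ 1 := by
    rw [hδ]
    exact ENNReal.toReal_le_of_le_ofReal zero_le_one (by simpa using hU)
  have hdist : ∀ x ∈ U, ∀ y ∈ U, dist x y ≤ δ := by
    intro x hx y hy
    have h1 := edist_le_ediam_of_mem hx hy
    rw [hδU, edist_dist] at h1
    exact (ENNReal.ofReal_le_ofReal_iff hδ0).1 h1
  rcases hδ0.eq_or_lt with h0 | h0
  · -- diameter zero
    have h1 : ∀ d : ℝ, 0 < d → d ≤ 1 → volume (TT U D j) ≤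
        ENNReal.ofReal (16 * (1 + 2 * K) ^ 4 * d ^ 2) * volume (ball (0 : E 4) 1) :=
      fun d hd hd1 => small_vol hj hD hd hd1 fun x hx y hy => (hdist x hx y hy).trans (by linarith)
    have h2 : Tendsto (fun d : ℝ => ENNReal.ofReal (16 * (1 + 2 * K) ^ 4 * d ^ 2) *
        volume (ball (0 : E 4) 1)) (𝓝[>] 0) (𝓝 (0 * volume (ball (0 : E 4) 1))) := by
      apply ENNReal.Tendsto.mul_const _ (Or.inr measure_ball_lt_top.ne)
      have h3 : Tendsto (fun d : ℝ => 16 * (1 + 2 * (K : ℝ)) ^ 4 * d ^ 2) (𝓝[>] 0) (𝓝 0) := by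
        have h4 : Continuous fun d : ℝ => 16 * (1 + 2 * (K : ℝ)) ^ 4 * d ^ 2 := by fun_prop
        have h5 := (h4.tendsto 0).mono_left (nhdsWithin_le_nhds (s := Ioi 0))
        simpa using h5
      simpa using ENNReal.tendsto_ofReal h3
    rw [zero_mul] at h2
    have h3 : volume (TT U D j) ≤ 0 := by
      refine ge_of_tendsto h2 ?_
      filter_upwards [Ioo_mem_nhdsGT (zero_lt_one (α := ℝ))] with d hd using h1 d hd.1 hd.2.le
    exact h3.trans bot_le
  · have h1 := small_vol hj hD h0 hδ1 hdist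
    refine h1.trans (le_of_eq ?_)
    rw [hδU, ENNReal.ofReal_mul (by positivity)]
    have h2 : ENNReal.ofReal (δ ^ 2) = ENNReal.ofReal δ ^ (2 : ℝ) := by
      rw [ENNReal.ofReal_rpow_of_pos h0]
      norm_num
    rw [h2]
    ring

/-- pieces on which the map is Lipschitz -/
theorem piece {K : ℝ≥0} {D : Set (E 2)} {j : E 2 → E 4} (hj : LipschitzOnWith K j D)
    {a : E 2} (hD : D ⊆ ball a 1) {B : Set (E 4)} (hB : Measure.hausdorffMeasure 2 B = 0) :
    volume (TT B D j) = 0 := by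
  obtain ⟨C, hC⟩ : ∃ C, C = ENNReal.ofReal (16 * (1 + 2 * K) ^ 4) * volume (ball (0 : E 4) 1) :=
    ⟨_, rfl⟩
  have hC0 : C ≠ 0 := by
    rw [hC]
    apply mul_ne_zero
    · rw [Ne, ENNReal.ofReal_eq_zero, not_le]
      positivity
    · exact (measure_ball_pos volume (0 : E 4) one_pos).ne'
  have hC1 : C ≠ ⊤ := by
    rw [hC]
    exact ENNReal.mul_ne_top ENNReal.ofReal_ne_top measure_ball_lt_top.ne
  rw [Measure.hausdorffMeasure_apply] at hB
  have h1 : (⨅ (t : ℕ → Set (E 4)) (_ : B ⊆ ⋃ n, t n) (_ : ∀ n, ediam (t n) ≤ 1),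
      ∑' n, ⨆ _ : (t n).Nonempty, ediam (t n) ^ (2 : ℝ)) = 0 := by
    refine le_antisymm (le_trans ?_ hB.le) bot_le
    exact le_iSup₂ (f := fun (r : ℝ≥0∞) (_ : 0 < r) =>
      ⨅ (t : ℕ → Set (E 4)) (_ : B ⊆ ⋃ n, t n) (_ : ∀ n, ediam (t n) ≤ r),
        ∑' n, ⨆ _ : (t n).Nonempty, ediam (t n) ^ (2 : ℝ)) 1 zero_lt_one
  have h2 : volume (TT B D j) / C ≤ 0 := by
    rw [← h1]
    refine le_iInf fun t => le_iInf fun ht => le_iInf fun htd => ?_
    rw [ENNReal.div_le_iff hC0 hC1, ENNReal.tsum_mul_right.symm]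
    have h3 : TT B D j ⊆ ⋃ n, TT (t n) D j := by
      rintro v ⟨s, hs, hv⟩
      obtain ⟨n, hn⟩ := mem_iUnion.1 (ht hv)
      exact mem_iUnion.2 ⟨n, s, hs, hn⟩
    refine (measure_mono h3).trans ((measure_iUnion_le _).trans ?_)
    refine ENNReal.tsum_le_tsum fun n => ?_
    rcases (t n).eq_empty_or_nonempty with h4 | h4
    · have h5 : TT (t n) D j = ∅ := by
        rw [h4]
        ext v
        simp [TT]
      rw [h5, measure_empty]
      exact bot_le
    · have h5 := diam_vol hj hD (htd n)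
      rw [← hC] at h5
      simp only [h4, iSup_pos]
      rw [mul_comm]
      exact h5
  have h3 : volume (TT B D j) / C = 0 := le_antisymm h2 bot_le
  rcases ENNReal.div_eq_zero_iff.1 h3 with h4 | h4
  · exact h4
  · exact absurd h4 hC1

theorem main : S_DIFF := by
  intro B D j hB hj
  have h1 : ∀ s ∈ D, ∃ (K : ℝ≥0) (V : Set (E 2)), V ∈ 𝓝 s ∧ V ⊆ ball s 1 ∧
      LipschitzOnWith K j V := by
    intro s hs
    obtain ⟨K, t, ht, hK⟩ := (hj s hs).exists_lipschitzOnWith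
    exact ⟨K, t ∩ ball s 1, inter_mem ht (ball_mem_nhds s one_pos), inter_subset_right,
      hK.mono inter_subset_left⟩
  choose! K V hV hV1 hK using h1
  obtain ⟨t, htD, htc, htU⟩ := TopologicalSpace.countable_cover_nhdsWithin (f := V) (s := D)
    fun s hs => mem_nhdsWithin_of_mem_nhds (hV s hs)
  have h2 : {v : E 4 | ∃ s ∈ D, j s + v ∈ B} ⊆ ⋃ x ∈ t, TT B (V x) j := by
    rintro v ⟨s, hs, hv⟩
    obtain ⟨x, hx, hxs⟩ := mem_iUnion₂.1 (htU hs)
    exact mem_iUnion₂.2 ⟨x, hx, s, hxs, hv⟩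
  refine measure_mono_null h2 ((measure_biUnion_null_iff htc).2 fun x hx => ?_)
  exact piece (hK x (htD hx)) (hV1 x (htD hx)) hB

end Pool.Agent.N550.SQ.Diff
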