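import Pool.Agent.N550.SQ.Stm

/-!
# Project SQ (helper550): closed null sets lie in an open cell (helper615)
-/

set_option autoImplicit false

open Set Filter Topology Metric Function MeasureTheory
open scoped Manifold ContDiff

noncomputable section

namespace Pool.Agent.N550.SQ.Eng2

open Pool.Agent.Y522 Pool.Agent.N550.KH Pool.Agent.N550.CQ Pool.Agent.N550.SQ

theorem main : S_GP → S_ENG2 := by
  intro hGP N _ _ _ _ _ a j K c hS B hB hBn
  obtain ⟨ψ, ⟨hψb, hψl⟩, hψ⟩ := hGP N a j B hS.j_smooth hB hBn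
  have hψc : Continuous ψ := continuous_iff_continuousAt.2 fun x => (hψl x).continuousAt
  have hO : IsOpen (ψ ⁻¹' Bᶜ) := hB.isOpen_compl.preimage hψc
  have hXO : (⋃ i, j i '' closedBall 0 1) ⊆ ψ ⁻¹' Bᶜ := by
    intro x hx
    obtain ⟨i, s, hs, rfl⟩ := mem_iUnion.1 hx
    exact hψ i s hs
  obtain ⟨κ, ⟨hκb, hκl⟩, hK⟩ := hS.K_cmp _ hO hXO
  obtain ⟨g, hg1, hg2⟩ := Function.bijective_iff_has_inverse.1 hκb
  have hgl : ∀ y, LD 4 g y := LD.inverse_bij hκb hκl hg1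
  refine ⟨fun z => ψ (g (c z)), ?_, ?_, ?_⟩
  · intro z z' h
    exact hS.c_inj (hg2.injective (hψb.1 h))
  · intro z
    exact (hψl _).comp_fun ((hgl _).comp_fun (hS.c_ld z))
  · intro b hb
    obtain ⟨x, rfl⟩ := hψb.2 b
    have h1 : κ x ∈ Kᶜ := by
      intro h2
      obtain ⟨o, ho, hox⟩ := hK h2
      have h3 : o = x := hκb.1 hox
      rw [h3] at ho
      exact ho hb
    obtain ⟨z, hz⟩ := hS.c_range h1
    refine ⟨z, ?_⟩
    change ψ (g (c z)) = ψ x
    rw [hz, hg1]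

end Pool.Agent.N550.SQ.Eng2
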