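import Pool.Agent.N550.SQ.Stm
import Pool.Agent.N550.KH.Shift
import Pool.Agent.N550.KH.Supp
import Pool.Agent.N550.CQ.Eng

/-!
# Project SQ: general position

Smooth 2-discs in a closed 4-manifold can be moved off closed sets of two-dimensional Hausdorff
measure zero: a compact piece of a disc in a cell is translated in the cell by a small vector.
-/

set_option autoImplicit false

open Set Filter Topology Metric Function MeasureTheory
open scoped Manifold ContDiff

noncomputable section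

namespace Pool.Agent.N550.SQ.Gp

open Pool.Agent.Y522 Pool.Agent.N550.KH Pool.Agent.N550.CQ

/-- an open cell with given center -/
theorem exists_cell {n : ℕ} {X : Type} [TopologicalSpace X] [ChartedSpace (E n) X]
    [IsManifold (𝓡 n) ∞ X] (x₀ : X) :
    ∃ c : E n → X, Injective c ∧ (∀ z, LD n c z) ∧ c 0 = x₀ := by
  set e := chartAt (E n) x₀ with he
  have h1 : e x₀ ∈ e.target := e.map_source (mem_chart_source _ x₀)
  obtain ⟨r, hr, hball⟩ := Metric.isOpen_iff.1 e.open_target _ h1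
  set B := OpenPartialHomeomorph.univBall (e x₀) r with hB
  have hsrc : B.source = univ := OpenPartialHomeomorph.univBall_source _ _
  have htgt : B.target = ball (e x₀) r := OpenPartialHomeomorph.univBall_target _ hr
  have hmem : ∀ z, B z ∈ e.target := by
    intro z
    apply hball
    rw [← htgt]
    exact B.map_source (by rw [hsrc]; exact mem_univ _)
  refine ⟨fun z => e.symm (B z), ?_, ?_, ?_⟩
  · intro x y hxy
    have h2 : B x = B y := e.symm.injOn (hmem x) (hmem y) hxy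
    exact B.injOn (by rw [hsrc]; exact mem_univ _) (by rw [hsrc]; exact mem_univ _) h2
  · intro z
    exact LD.comp_fun (g := e.symm) (f := B) (Eng.ld_chart_symm x₀ _ (hmem z)) (Eng.ld_univBall hr z)
  · show e.symm (B 0) = x₀
    rw [hB, OpenPartialHomeomorph.univBall_apply_zero]
    exact e.left_inv (mem_chart_source _ x₀)

/-- a cutoff function with bounded derivative -/
theorem cutoff (n : ℕ) : ∃ (χ : E n → ℝ) (L : ℝ), ContDiff ℝ ∞ χ ∧ 0 < L ∧
    (∀ z, ‖fderiv ℝ χ z‖ ≤ L) ∧ (∀ z, ‖z‖ ≤ 1 → χ z = 1) ∧ (∀ z, 2 ≤ ‖z‖ → χ z = 0) ∧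
    ∀ z, 0 ≤ χ z ∧ χ z ≤ 1 := by
  let f : ContDiffBump (0 : E n) := ⟨1, 2, one_pos, one_lt_two⟩
  have hf : ContDiff ℝ ∞ f := f.contDiff
  have hc : HasCompactSupport (fderiv ℝ f) := f.hasCompactSupport.fderiv (𝕜 := ℝ)
  have hcont : Continuous (fderiv ℝ f) := hf.continuous_fderiv (by simp)
  obtain ⟨L, hL⟩ := hcont.bounded_above_of_compact_support hc
  refine ⟨f, max L 1, hf, lt_max_of_lt_right one_pos, fun z => (hL z).trans (le_max_left _ _), ?_, ?_,
    fun z => ⟨f.nonneg, f.le_one⟩⟩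
  · intro z hz
    exact f.one_of_mem_closedBall (by rw [mem_closedBall, dist_zero_right]; exact hz)
  · intro z hz
    exact f.zero_of_le_dist (by rw [dist_zero_right]; exact hz)

/-- the step: a piece of a disc in a cell -/
theorem step (hD : S_DIFF) {N : Type} [TopologicalSpace N] [CompactSpace N] [T2Space N]
    [ChartedSpace (E 4) N] [IsManifold (𝓡 4) ∞ N] {B : Set N} (hB : IsClosed B)
    (hN : NullHS 2 4 B) {j : E 2 → N} (hj : ContMDiff (𝓡 2) (𝓡 4) ∞ j) {h : E 4 → N}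
    (hi : Injective h) (hl : ∀ z, LD 4 h z) {D : Set (E 2)} (hDh : ∀ s ∈ D, j s ∈ h '' ball 0 1)
    (φ : N → N) (hφ : IsDf 4 φ) (C : Set N) (hC : IsCompact C) (hCB : ∀ x ∈ C, φ x ∉ B) :
    ∃ ψ : N → N, IsDf 4 ψ ∧ (∀ x ∈ C, ψ x ∉ B) ∧ ∀ s ∈ D, ψ (j s) ∉ B := by
  obtain ⟨χ, L, hχ, hL, hχL, hχ1, hχ2, hχ01⟩ := cutoff 4
  have hg : ∀ z, invFun h (h z) = z := leftInverse_invFun hi
  -- the cell `h' = φ ∘ h`
  have hi' : Injective fun z => φ (h z) := hφ.1.1.comp hi
  have hl' : ∀ z, LD 4 (fun z => φ (h z)) z := fun z => LD.comp_fun (hφ.2 _) (hl z)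
  have hcont' : Continuous fun z => φ (h z) := continuous_iff_continuousAt.2 fun z => (hl' z).continuousAt
  have hφc : Continuous φ := continuous_iff_continuousAt.2 fun z => (hφ.2 z).continuousAt
  set B' : Set (E 4) := (fun z => φ (h z)) ⁻¹' B with hB'
  have hB'c : IsClosed B' := hB.preimage hcont'
  have hB'0 : Measure.hausdorffMeasure 2 B' = 0 := hN _ hi' hl'
  -- the piece of the disc in the cell
  have hJ1 : ∀ s ∈ D, h (invFun h (j s)) = j s ∧ ‖invFun h (j s)‖ ≤ 1 := by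
    intro s hs
    obtain ⟨z, hz, hzs⟩ := hDh s hs
    rw [← hzs, hg]
    rw [mem_ball, dist_zero_right] at hz
    exact ⟨rfl, hz.le⟩
  have hJs : ∀ s ∈ D, ContDiffAt ℝ 1 (fun s => invFun h (j s)) s := by
    intro s hs
    have h1 : LD 4 (invFun h) (j s) := by
      rw [← (hJ1 s hs).1]
      exact LD.inverse isOpen_univ (fun x _ => hl x) (fun x _ => hg x) (mem_univ _)
    have h2 : ContMDiffAt (𝓡 2) (𝓡 4) ∞ (fun s => invFun h (j s)) s :=
      ContMDiffAt.comp (g := invFun h) (f := j) s h1.contMDiffAt (hj s)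
    exact (contMDiffAt_iff_contDiffAt.1 h2).of_le (by simp)
  have hnull := hD B' D (fun s => invFun h (j s)) hB'0 hJs
  -- the part of `C` in the cell
  set C' : Set (E 4) := closedBall 0 2 ∩ (fun z => φ (h z)) ⁻¹' (φ '' C) with hC'
  have hC'c : IsCompact C' :=
    (isCompact_closedBall (0 : E 4) 2).inter_right ((hC.image hφc).isClosed.preimage hcont')
  have hC'B : C' ⊆ B'ᶜ := by
    rintro w ⟨-, x, hx, hxw⟩ hwB
    apply hCB x hx
    have h1 : φ (h w) ∈ B := hwB
    have h2 : φ x = φ (h w) := hxw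
    rw [h2]
    exact h1
  obtain ⟨δ, hδ, hδB⟩ := hC'c.exists_thickening_subset_open hB'c.isOpen_compl hC'B
  -- the choice of the translation
  have hr : 0 < min δ (1 / (2 * L)) := lt_min hδ (by positivity)
  obtain ⟨v, hv, hvn⟩ : ∃ v ∈ ball (0 : E 4) (min δ (1 / (2 * L))),
      v ∉ {v : E 4 | ∃ s ∈ D, invFun h (j s) + v ∈ B'} := by
    by_contra hcon
    push Not at hcon
    have h1 : volume (ball (0 : E 4) (min δ (1 / (2 * L)))) ≤ 0 := by
      rw [← hnull]
      exact measure_mono hcon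
    exact absurd (measure_ball_pos volume (0 : E 4) hr) (not_lt.2 h1)
  rw [mem_ball, dist_zero_right] at hv
  have hvδ : ‖v‖ < δ := hv.trans_le (min_le_left _ _)
  have hvL : ‖v‖ < 1 / (2 * L) := hv.trans_le (min_le_right _ _)
  have hκ : IsDf 4 (fun z : E 4 => z + χ z • v) := by
    refine Shift.main.1 4 χ v (1 / 2) hχ (by norm_num) fun z => ?_
    calc ‖fderiv ℝ χ z‖ * ‖v‖ ≤ L * (1 / (2 * L)) :=
          mul_le_mul (hχL z) hvL.le (norm_nonneg _) hL.le
      _ = 1 / 2 := by field_simp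
  obtain ⟨K, hK, hKh, hKo⟩ := Supp.main 4 N (fun z => φ (h z)) hi' hl' _ hκ
    ⟨2, fun z hz => by simp only [hχ2 z hz, zero_smul, add_zero]⟩
  refine ⟨fun x => K (φ x), Eng.isDf_comp hK hφ, fun x hx => ?_, fun s hs => ?_⟩
  · show K (φ x) ∉ B
    by_cases hxr : φ x ∈ range fun z => φ (h z)
    · obtain ⟨w, hw⟩ := hxr
      have hw' : φ (h w) = φ x := hw
      rw [← hw', hKh]
      have hwB : w ∉ B' := by
        intro hwB
        apply hCB x hx
        rw [← hw']
        exact hwB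
      by_cases hw2 : 2 ≤ ‖w‖
      · have h1 : w + χ w • v = w := by rw [hχ2 w hw2, zero_smul, add_zero]
        rw [h1]
        exact hwB
      · push Not at hw2
        have h1 : w ∈ C' := ⟨by rw [mem_closedBall, dist_zero_right]; exact hw2.le, x, hx, hw'.symm⟩
        have h2 : w + χ w • v ∈ thickening δ C' := by
          rw [mem_thickening_iff]
          refine ⟨w, h1, ?_⟩
          rw [dist_eq_norm, add_sub_cancel_left, norm_smul, Real.norm_eq_abs, abs_of_nonneg (hχ01 w).1]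
          calc χ w * ‖v‖ ≤ 1 * ‖v‖ := mul_le_mul_of_nonneg_right (hχ01 w).2 (norm_nonneg _)
            _ = ‖v‖ := one_mul _
            _ < δ := hvδ
        exact hδB h2
    · rw [hKo _ hxr]
      exact hCB x hx
  · show K (φ (j s)) ∉ B
    obtain ⟨h1, h2⟩ := hJ1 s hs
    have h3 := hKh (invFun h (j s))
    rw [h1, hχ1 _ h2, one_smul] at h3
    rw [h3]
    intro hcon
    exact hvn ⟨s, hs, hcon⟩

theorem main : S_DIFF → S_GP := by
  intro hD N _ _ _ _ _ a j B hj hB hN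
  -- the pairs of an index and a parameter
  have key : ∃ T' : Set (Fin a × E 2), IsCompact T' ∧
      (univ : Set (Fin a)) ×ˢ closedBall (0 : E 2) 1 ⊆ T' ∧
      ∀ φ : N → N, IsDf 4 φ → ∀ C : Set N, IsCompact C → (∀ x ∈ C, φ x ∉ B) →
        ∃ ψ : N → N, IsDf 4 ψ ∧ (∀ x ∈ C, ψ x ∉ B) ∧ ∀ q ∈ T', ψ (j q.1 q.2) ∉ B := by
    have hcomp : IsCompact ((univ : Set (Fin a)) ×ˢ closedBall (0 : E 2) 1) :=
      isCompact_univ.prod (isCompact_closedBall _ _)
    refine hcomp.induction_on (p := fun T => ∃ T' : Set (Fin a × E 2), IsCompact T' ∧ T ⊆ T' ∧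
      ∀ φ : N → N, IsDf 4 φ → ∀ C : Set N, IsCompact C → (∀ x ∈ C, φ x ∉ B) →
        ∃ ψ : N → N, IsDf 4 ψ ∧ (∀ x ∈ C, ψ x ∉ B) ∧ ∀ q ∈ T', ψ (j q.1 q.2) ∉ B) ?_ ?_ ?_ ?_
    · exact ⟨∅, isCompact_empty, Subset.rfl, fun φ hφ C _ hCB => ⟨φ, hφ, hCB, fun q hq => hq.elim⟩⟩
    · rintro s t hst ⟨T', h1, h2, h3⟩
      exact ⟨T', h1, hst.trans h2, h3⟩
    · rintro s t ⟨S', hS1, hS2, hS3⟩ ⟨T', hT1, hT2, hT3⟩
      refine ⟨S' ∪ T', hS1.union hT1, union_subset_union hS2 hT2, fun φ hφ C hC hCB => ?_⟩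
      obtain ⟨ψ₁, h1, h2, h3⟩ := hS3 φ hφ C hC hCB
      have hJ : Continuous fun q : Fin a × E 2 => j q.1 q.2 := by
        rw [continuous_prod_of_discrete_left]
        intro i
        exact (hj i).continuous
      obtain ⟨ψ₂, h4, h5, h6⟩ := hT3 ψ₁ h1 (C ∪ (fun q : Fin a × E 2 => j q.1 q.2) '' S')
        (hC.union (hS1.image hJ)) (by
          rintro x (hx | ⟨q, hq, rfl⟩)
          · exact h2 x hx
          · exact h3 q hq)
      refine ⟨ψ₂, h4, fun x hx => h5 x (Or.inl hx), ?_⟩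
      rintro q (hq | hq)
      · exact h5 _ (Or.inr ⟨q, hq, rfl⟩)
      · exact h6 q hq
    · rintro ⟨i, s₀⟩ -
      obtain ⟨h, hi, hl, h0⟩ := exists_cell (n := 4) (j i s₀)
      have hO : IsOpen (h '' ball 0 1) := isOpen_image_of_LD isOpen_ball fun x _ => hl x
      have h1 : j i ⁻¹' (h '' ball 0 1) ∈ 𝓝 s₀ :=
        (hj i).continuous.continuousAt.preimage_mem_nhds
          (hO.mem_nhds ⟨0, mem_ball_self one_pos, h0⟩)
      obtain ⟨ε, hε, hεs⟩ := Metric.nhds_basis_closedBall.mem_iff.1 h1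
      refine ⟨({i} : Set (Fin a)) ×ˢ closedBall s₀ ε, ?_, ({i} : Set (Fin a)) ×ˢ closedBall s₀ ε,
        isCompact_singleton.prod (isCompact_closedBall _ _), Subset.rfl, fun φ hφ C hC hCB => ?_⟩
      · apply mem_nhdsWithin_of_mem_nhds
        exact prod_mem_nhds (by simp) (closedBall_mem_nhds _ hε)
      · obtain ⟨ψ, h2, h3, h4⟩ := step hD hB hN (hj i) hi hl (D := closedBall s₀ ε)
          (fun s hs => hεs hs) φ hφ C hC hCB
        refine ⟨ψ, h2, h3, ?_⟩
        rintro ⟨i', s⟩ ⟨hi', hs⟩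
        obtain rfl : i' = i := hi'
        exact h4 s hs
  obtain ⟨T', -, hT, h⟩ := key
  obtain ⟨ψ, h1, -, h2⟩ := h (fun x => x) ⟨bijective_id, fun x => LD.id x⟩ ∅ isCompact_empty
    (fun x hx => hx.elim)
  exact ⟨ψ, h1, fun i s hs => h2 (i, s) (hT ⟨mem_univ _, hs⟩)⟩

end Pool.Agent.N550.SQ.Gp
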