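import Pool.Agent.N550.SQ.Stm
import Pool.Agent.N550.CQ.Sard0

/-!
# SQ/SARDR: the Sard-Federer theorem for all ranks (helper453)

`main`: the image of the set of points of rank at most `ν` of a smooth map has Hausdorff dimension
at most `ν`.  In suitable coordinates `(t, y)` the points of rank `r` are points at which the
vertical derivative `dy` vanishes (`dim_rank`); the flat points are treated by a covering by boxes
with sides `N ^ (-(k + 1))`, `N ^ (-1)` (`cover`, `dim_flat`), the others lie on hypersurfaces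
transversal to the fibres (`stratum`, `param`, `claim`).  The tools on germs and flat points are
those of `H664/Sard.lean` and `CQ/Sard0.lean`.
-/

set_option autoImplicit false

open Set Filter Topology MeasureTheory Metric
open scoped ContDiff Manifold ENNReal NNReal

namespace Pool.Agent.N550.SQ.Sardr

open Pool.Agent.H664.Sard (mvt_pow dimH_image_le_of_local)
open Pool.Agent.N550.CQ.Sard0 (exists_extension)
open Pool.Agent.Y522

noncomputable section

/-- `ℝ^n` with the maximum norm -/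
abbrev V (n : ℕ) := Fin n → ℝ

/-- the vertical derivative -/
def dy {r q : ℕ} {F : Type} [NormedAddCommGroup F] [NormedSpace ℝ F] (g : V r × V q → F)
    (z : V r × V q) : V q →L[ℝ] F :=
  (fderiv ℝ g z).comp (ContinuousLinearMap.inr ℝ (V r) (V q))

lemma dy_apply {r q : ℕ} {F : Type} [NormedAddCommGroup F] [NormedSpace ℝ F] (g : V r × V q → F)
    (z : V r × V q) (v : V q) : dy g z v = fderiv ℝ g z (0, v) := rfl

lemma dy_contDiff {r q : ℕ} {F : Type} [NormedAddCommGroup F] [NormedSpace ℝ F]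
    {g : V r × V q → F} (hg : ContDiff ℝ ∞ g) : ContDiff ℝ ∞ (dy g) := by
  have h1 : ContDiff ℝ ∞ (fderiv ℝ g) := hg.fderiv_right (by simp)
  exact h1.clm_comp contDiff_const

lemma slice_hasFDerivAt {r q : ℕ} {F : Type} [NormedAddCommGroup F] [NormedSpace ℝ F]
    {g : V r × V q → F} (hg : Differentiable ℝ g) (t : V r) (y : V q) :
    HasFDerivAt (fun y => g (t, y)) (dy g (t, y)) y := by
  have h1 : HasFDerivAt (fun y : V q => (t, y)) (ContinuousLinearMap.inr ℝ (V r) (V q)) y :=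
    hasFDerivAt_prodMk_right t y
  exact (hg (t, y)).hasFDerivAt.comp y h1

/-- the points at which all vertical derivatives of order less than `k` vanish -/
def Flat (r q : ℕ) : ℕ → ∀ {F : Type} [NormedAddCommGroup F] [NormedSpace ℝ F],
    (V r × V q → F) → Set (V r × V q)
  | 0, _, _, _, _ => univ
  | k + 1, _, _, _, h => {z | h z = 0 ∧ z ∈ Flat r q k (dy h)}

lemma flat_anti {r q : ℕ} (k : ℕ) : ∀ {F : Type} [NormedAddCommGroup F] [NormedSpace ℝ F]
    (h : V r × V q → F), Flat r q (k + 1) h ⊆ Flat r q k h := by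
  induction k with
  | zero => intro F _ _ h z _; exact mem_univ z
  | succ k ih => intro F _ _ h z hz; exact ⟨hz.1, ih (dy h) hz.2⟩

lemma taylor {r q : ℕ} (p : V r × V q) (k : ℕ) :
    ∀ {F : Type} [NormedAddCommGroup F] [NormedSpace ℝ F] (h : V r × V q → F),
      ContDiff ℝ ∞ h → ∃ C : ℝ, 0 ≤ C ∧ ∀ z ∈ closedBall p (1 / 2), z ∈ Flat r q k h →
        ∀ y ∈ closedBall p.2 (1 / 2), ‖h (z.1, y)‖ ≤ C * ‖y - z.2‖ ^ k := by
  induction k with
  | zero =>
    intro F _ _ h hh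
    obtain ⟨C, hC⟩ := (isCompact_closedBall p (1 / 2 : ℝ)).exists_bound_of_continuousOn
      hh.continuous.continuousOn
    refine ⟨max C 0, le_max_right _ _, fun z hz _ y hy => ?_⟩
    rw [pow_zero, mul_one]
    refine (hC _ ?_).trans (le_max_left _ _)
    rw [← closedBall_prod_same] at hz ⊢
    exact ⟨hz.1, hy⟩
  | succ k ih =>
    intro F _ _ h hh
    obtain ⟨C, hC, hC2⟩ := ih (dy h) (dy_contDiff hh)
    have hd : Differentiable ℝ h := hh.differentiable (by simp)
    refine ⟨C, hC, fun z hz hzf y hy => ?_⟩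
    have h1 : Differentiable ℝ fun y => h (z.1, y) := fun y =>
      (slice_hasFDerivAt hd z.1 y).differentiableAt
    have hz2 : z.2 ∈ closedBall p.2 (1 / 2) := by
      rw [← closedBall_prod_same] at hz
      exact hz.2
    have h2 := mvt_pow h1 (convex_closedBall p.2 (1 / 2)) hz2 hC (n := k) (fun y hy => by
      rw [(slice_hasFDerivAt hd z.1 y).fderiv]
      exact hC2 z hz hzf.2 y hy) y hy
    have h3 : h (z.1, z.2) = 0 := hzf.1
    rwa [h3, sub_zero] at h2

lemma stratum {r q : ℕ} (j : ℕ) : ∀ {F : Type} [NormedAddCommGroup F] [NormedSpace ℝ F]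
    (h : V r × V q → F) (p : V r × V q), ContDiff ℝ ∞ h → p ∈ Flat r q (j + 1) h →
    p ∉ Flat r q (j + 2) h →
    ∃ w : V r × V q → ℝ, ContDiff ℝ ∞ w ∧ dy w p ≠ 0 ∧ ∀ z ∈ Flat r q (j + 1) h, w z = 0 := by
  induction j with
  | zero =>
    intro F _ _ h p hh hp hp2
    have h1 : dy h p ≠ 0 := fun h0 => hp2 ⟨hp.1, h0, mem_univ _⟩
    obtain ⟨v, hv⟩ : ∃ v, dy h p v ≠ 0 := by
      by_contra hcon
      push Not at hcon
      exact h1 (ContinuousLinearMap.ext hcon)
    obtain ⟨π, hπ⟩ := SeparatingDual.exists_ne_zero (R := ℝ) hv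
    refine ⟨fun z => π (h z), π.contDiff.comp hh, ?_, fun z hz => by
      have h5 : h z = 0 := hz.1
      simp only [h5, map_zero]⟩
    intro h0
    have h2 : HasFDerivAt (fun z => π (h z)) (π.comp (fderiv ℝ h p)) p :=
      π.hasFDerivAt.comp p (hh.differentiable (by simp) p).hasFDerivAt
    apply hπ
    have h3 := congrArg (fun A : V q →L[ℝ] ℝ => A v) h0
    simp only [dy_apply, h2.fderiv] at h3
    exact h3
  | succ j ih =>
    intro F _ _ h p hh hp hp2
    obtain ⟨w, hw1, hw2, hw3⟩ := ih (dy h) p (dy_contDiff hh) hp.2 (fun h0 => hp2 ⟨hp.1, h0⟩)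
    exact ⟨w, hw1, hw2, fun z hz => hw3 z hz.2⟩

lemma floor_cell {x x' M : ℝ} (hM : 0 < M) (hx : 0 ≤ x) (hx' : 0 ≤ x')
    (h : ⌊x * M⌋₊ = ⌊x' * M⌋₊) : |x - x'| ≤ 1 / M := by
  have h1 := Nat.floor_le (mul_nonneg hx hM.le)
  have h2 := Nat.lt_floor_add_one (x * M)
  have h3 := Nat.floor_le (mul_nonneg hx' hM.le)
  have h4 := Nat.lt_floor_add_one (x' * M)
  rw [h] at h1 h2
  have h5 : |(x - x') * M| ≤ 1 := by
    rw [abs_le]
    constructor <;> nlinarith
  rw [abs_mul, abs_of_pos hM] at h5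
  rwa [le_div_iff₀ hM]

lemma cell_dist {n : ℕ} (p : V n) {x x' : V n} (hx : x ∈ closedBall p (1 / 2))
    (hx' : x' ∈ closedBall p (1 / 2)) {M : ℝ} (hM : 0 < M)
    (h : ∀ j, ⌊(x j - p j + 1 / 2) * M⌋₊ = ⌊(x' j - p j + 1 / 2) * M⌋₊) : dist x x' ≤ 1 / M := by
  rw [dist_pi_le_iff (by positivity)]
  intro j
  rw [mem_closedBall, dist_pi_le_iff (by norm_num)] at hx hx'
  have h1 := hx j
  have h2 := hx' j
  rw [Real.dist_eq, abs_le] at h1 h2
  have h3 := floor_cell hM (by linarith) (by linarith) (h j)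
  rw [Real.dist_eq]
  have e : x j - x' j = x j - p j + 1 / 2 - (x' j - p j + 1 / 2) := by ring
  rw [e]
  exact h3

lemma cell_lt {n : ℕ} (p : V n) {x : V n} (hx : x ∈ closedBall p (1 / 2)) (M : ℕ) (j : Fin n) :
    ⌊(x j - p j + 1 / 2) * M⌋₊ < M + 1 := by
  rw [mem_closedBall, dist_pi_le_iff (by norm_num)] at hx
  have h1 := hx j
  rw [Real.dist_eq, abs_le] at h1
  rw [Nat.lt_add_one_iff]
  apply Nat.floor_le_of_le
  have : (x j - p j + 1 / 2) ≤ 1 := by linarith
  calc (x j - p j + 1 / 2) * M ≤ 1 * M := by gcongr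
    _ = M := one_mul _

/-- covering -/
lemma cover {r q : ℕ} {F : Type} [MetricSpace F] [MeasurableSpace F] [BorelSpace F]
    (p : V r × V q) (S : Set (V r × V q)) (hS : S ⊆ closedBall p (1 / 2)) (f : V r × V q → F)
    (A : ℝ) (hA : 0 ≤ A) (k : ℕ)
    (h : ∀ z ∈ S, ∀ z' ∈ S, dist (f z) (f z') ≤ A * (dist z.1 z'.1 + dist z.2 z'.2 ^ (k + 1)))
    (s : ℝ) (hs0 : 0 ≤ s) (hs : ((k : ℝ) + 1) * r + q + 1 ≤ (k + 1) * s) :
    Measure.hausdorffMeasure s (f '' S) = 0 := by
  set N : ℕ → ℕ := fun n => n + 1 with hN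
  set M : ℕ → ℕ := fun n => (n + 1) ^ (k + 1) with hM
  have hN0 : ∀ n, (0 : ℝ) < (N n : ℝ) := fun n => by simp only [hN]; positivity
  have hM0 : ∀ n, (0 : ℝ) < (M n : ℝ) := fun n => by simp only [hM]; positivity
  have hN1 : ∀ n, (1 : ℝ) ≤ (N n : ℝ) := fun n => by
    simp only [hN]; push_cast; linarith [(Nat.cast_nonneg n : (0 : ℝ) ≤ n)]
  have hMN : ∀ n, (M n : ℝ) = (N n : ℝ) ^ (k + 1) := fun n => by simp only [hN, hM]; push_cast; rfl
  have hM1 : ∀ n, (1 : ℝ) ≤ (M n : ℝ) := fun n => by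
    rw [hMN]; exact one_le_pow₀ (hN1 n)
  let t : ∀ n : ℕ, ((Fin r → Fin (M n + 1)) × (Fin q → Fin (N n + 1))) → Set F := fun n i =>
    f '' {z | z ∈ S ∧ (∀ j, ⌊(z.1 j - p.1 j + 1 / 2) * (M n : ℝ)⌋₊ = i.1 j) ∧
      ∀ j, ⌊(z.2 j - p.2 j + 1 / 2) * (N n : ℝ)⌋₊ = i.2 j}
  have hS1 : ∀ z ∈ S, z.1 ∈ closedBall p.1 (1 / 2) := fun z hz => by
    have := hS hz
    rw [← closedBall_prod_same] at this
    exact this.1
  have hS2 : ∀ z ∈ S, z.2 ∈ closedBall p.2 (1 / 2) := fun z hz => by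
    have := hS hz
    rw [← closedBall_prod_same] at this
    exact this.2
  have ht : ∀ n, ∀ i, ediam (t n i) ≤ ENNReal.ofReal (2 * A / M n) := by
    intro n i
    apply ediam_le
    rintro _ ⟨z, ⟨hz, hz1, hz2⟩, rfl⟩ _ ⟨z', ⟨hz', hz1', hz2'⟩, rfl⟩
    rw [edist_dist]
    apply ENNReal.ofReal_le_ofReal
    refine (h z hz z' hz').trans ?_
    have h1 : dist z.1 z'.1 ≤ 1 / M n := cell_dist p.1 (hS1 z hz) (hS1 z' hz') (hM0 n)
      (fun j => by rw [hz1 j, hz1' j])
    have h2 : dist z.2 z'.2 ≤ 1 / N n := cell_dist p.2 (hS2 z hz) (hS2 z' hz') (hN0 n)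
      (fun j => by rw [hz2 j, hz2' j])
    have h3 : dist z.2 z'.2 ^ (k + 1) ≤ 1 / M n := by
      rw [hMN, ← one_div_pow]
      gcongr
    calc A * (dist z.1 z'.1 + dist z.2 z'.2 ^ (k + 1)) ≤ A * (1 / M n + 1 / M n) := by gcongr
      _ = 2 * A / M n := by ring
  have hcov : ∀ n, f '' S ⊆ ⋃ i, t n i := by
    rintro n _ ⟨z, hz, rfl⟩
    refine mem_iUnion.2 ⟨(fun j => ⟨_, cell_lt p.1 (hS1 z hz) (M n) j⟩,
      fun j => ⟨_, cell_lt p.2 (hS2 z hz) (N n) j⟩), z, ⟨hz, fun j => rfl, fun j => rfl⟩, rfl⟩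
  have hr : Tendsto (fun n => ENNReal.ofReal (2 * A / M n)) atTop (𝓝 0) := by
    rw [← ENNReal.ofReal_zero]
    apply ENNReal.tendsto_ofReal
    apply Tendsto.div_atTop tendsto_const_nhds
    refine tendsto_atTop_mono (fun n => ?_) tendsto_natCast_atTop_atTop
    rw [hMN]
    calc (n : ℝ) ≤ (N n : ℝ) := by simp only [hN]; push_cast; linarith
      _ = (N n : ℝ) ^ 1 := (pow_one _).symm
      _ ≤ (N n : ℝ) ^ (k + 1) := pow_le_pow_right₀ (hN1 n) (by omega)
  have hmain := Measure.hausdorffMeasure_le_liminf_sum s (f '' S) _ hr t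
    (Eventually.of_forall ht) (Eventually.of_forall hcov)
  refine le_antisymm (hmain.trans ?_) bot_le
  have hbd : ∀ n, ∑ i, ediam (t n i) ^ s ≤
      ENNReal.ofReal (2 ^ (r + q) * (2 * A) ^ s / N n) := by
    intro n
    calc ∑ i, ediam (t n i) ^ s
        ≤ ∑ _i : ((Fin r → Fin (M n + 1)) × (Fin q → Fin (N n + 1))),
          ENNReal.ofReal ((2 * A / M n) ^ s) := by
          refine Finset.sum_le_sum fun i _ => ?_
          rw [← ENNReal.ofReal_rpow_of_nonneg (by positivity) hs0]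
          exact ENNReal.rpow_le_rpow (ht n i) hs0
      _ = ENNReal.ofReal (((M n : ℝ) + 1) ^ r * ((N n : ℝ) + 1) ^ q * (2 * A / M n) ^ s) := by
          rw [Finset.sum_const, Finset.card_univ, Fintype.card_prod, Fintype.card_fun,
            Fintype.card_fun, Fintype.card_fin, Fintype.card_fin, Fintype.card_fin,
            Fintype.card_fin, nsmul_eq_mul, ENNReal.ofReal_mul (by positivity)]
          congr 1
          rw [← ENNReal.ofReal_natCast]
          push_cast
          rfl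
      _ ≤ _ := by
          apply ENNReal.ofReal_le_ofReal
          have h1 : ((M n : ℝ) + 1) ^ r ≤ 2 ^ r * (M n : ℝ) ^ r := by
            rw [← mul_pow]; gcongr; linarith [hM1 n]
          have h2 : ((N n : ℝ) + 1) ^ q ≤ 2 ^ q * (N n : ℝ) ^ q := by
            rw [← mul_pow]; gcongr; linarith [hN1 n]
          have h3 : (2 * A / M n) ^ s = (2 * A) ^ s / (M n : ℝ) ^ s :=
            Real.div_rpow (by positivity) (hM0 n).le s
          have h4 : (M n : ℝ) ^ r * (N n : ℝ) ^ q * N n ≤ (M n : ℝ) ^ s := by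
            rw [hMN, ← pow_mul, ← pow_add, ← pow_succ, ← Real.rpow_natCast, ← Real.rpow_natCast,
              ← Real.rpow_mul (hN0 n).le]
            apply Real.rpow_le_rpow_of_exponent_le (hN1 n)
            push_cast
            linarith
          have h5 : 0 < (M n : ℝ) ^ s := Real.rpow_pos_of_pos (hM0 n) s
          have h6 : (0 : ℝ) ≤ (2 * A) ^ s := Real.rpow_nonneg (by positivity) s
          calc ((M n : ℝ) + 1) ^ r * ((N n : ℝ) + 1) ^ q * (2 * A / M n) ^ s
              ≤ (2 ^ r * (M n : ℝ) ^ r) * (2 ^ q * (N n : ℝ) ^ q) * (2 * A / M n) ^ s := by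
                have : (0 : ℝ) ≤ (2 * A / M n) ^ s := Real.rpow_nonneg (by positivity) s
                gcongr
            _ = 2 ^ (r + q) * (2 * A) ^ s * (((M n : ℝ) ^ r * (N n : ℝ) ^ q) / (M n : ℝ) ^ s) := by
                rw [h3, pow_add]; ring
            _ ≤ 2 ^ (r + q) * (2 * A) ^ s * (1 / N n) := by
                gcongr 2 ^ (r + q) * (2 * A) ^ s * ?_
                rw [div_le_div_iff₀ h5 (hN0 n), one_mul]
                exact h4
            _ = _ := by ring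
  have hlim : Tendsto (fun n => ENNReal.ofReal (2 ^ (r + q) * (2 * A) ^ s / N n)) atTop (𝓝 0) := by
    rw [← ENNReal.ofReal_zero]
    apply ENNReal.tendsto_ofReal
    apply Tendsto.div_atTop tendsto_const_nhds
    refine tendsto_atTop_mono (fun n => ?_) tendsto_natCast_atTop_atTop
    simp only [hN]; push_cast; linarith
  calc liminf (fun n => ∑ i, ediam (t n i) ^ s) atTop
      ≤ liminf (fun n => ENNReal.ofReal (2 ^ (r + q) * (2 * A) ^ s / N n)) atTop :=
        liminf_le_liminf (Eventually.of_forall hbd)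
    _ = 0 := hlim.liminf_eq
/-- the inverse function theorem for germs -/
lemma inv_germ {X Y : Type} [NormedAddCommGroup X] [NormedSpace ℝ X] [CompleteSpace X]
    [NormedAddCommGroup Y] [NormedSpace ℝ Y] (f : X → Y) (x : X)
    (hf : ∀ᶠ z in 𝓝 x, ContDiffAt ℝ ∞ f z) (A : X ≃L[ℝ] Y)
    (hA : HasFDerivAt f (A : X →L[ℝ] Y) x) :
    ∃ ψ : Y → X, ψ (f x) = x ∧ (∀ᶠ y in 𝓝 (f x), ContDiffAt ℝ ∞ ψ y ∧ f (ψ y) = y) ∧
      ∀ᶠ z in 𝓝 x, ψ (f z) = z := by
  have hn : (∞ : WithTop ℕ∞) ≠ 0 := by simp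
  have hfx : ContDiffAt ℝ ∞ f x := hf.self_of_nhds
  set Φ := hfx.toOpenPartialHomeomorph f hA hn with hΦ
  have hxs : x ∈ Φ.source := hfx.mem_toOpenPartialHomeomorph_source hA hn
  have hcoe : (Φ : X → Y) = f := hfx.toOpenPartialHomeomorph_coe hA hn
  have hfxt : f x ∈ Φ.target := by
    rw [← hcoe]
    exact Φ.map_source hxs
  have hsymm : Φ.symm (f x) = x := by
    rw [← hcoe]
    exact Φ.left_inv hxs
  have h1 : ∀ᶠ z in 𝓝 x, ∃ B : X ≃L[ℝ] Y, HasFDerivAt f (B : X →L[ℝ] Y) z := by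
    have hc : ContinuousAt (fderiv ℝ f) x := hfx.continuousAt_fderiv (by simp)
    have h2 : ∀ᶠ z in 𝓝 x, fderiv ℝ f z ∈ range ((↑) : (X ≃L[ℝ] Y) → X →L[ℝ] Y) := by
      apply hc
      rw [hA.fderiv]
      exact ContinuousLinearEquiv.nhds A
    filter_upwards [h2, hf] with z hz hz2
    obtain ⟨B, hB⟩ := hz
    refine ⟨B, ?_⟩
    rw [hB]
    exact (hz2.differentiableAt (by simp)).hasFDerivAt
  have hct : Tendsto Φ.symm (𝓝 (f x)) (𝓝 x) := by
    have := Φ.continuousAt_symm hfxt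
    rw [ContinuousAt, hsymm] at this
    exact this
  refine ⟨Φ.symm, hsymm, ?_, ?_⟩
  · filter_upwards [Φ.open_target.mem_nhds hfxt, hct.eventually h1, hct.eventually hf] with y h2 h3 h4
    obtain ⟨B, hB⟩ := h3
    refine ⟨Φ.contDiffAt_symm h2 (f₀' := B) (by rw [hcoe]; exact hB) (by rw [hcoe]; exact h4), ?_⟩
    rw [← hcoe]
    exact Φ.right_inv h2
  · filter_upwards [Φ.open_source.mem_nhds hxs] with z hz
    rw [← hcoe]
    exact Φ.left_inv hz

/-- injective linear maps between spaces of equal dimension -/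
lemma exists_equiv {X Y : Type} [NormedAddCommGroup X] [NormedSpace ℝ X] [FiniteDimensional ℝ X]
    [NormedAddCommGroup Y] [NormedSpace ℝ Y] [FiniteDimensional ℝ Y] (D : X →L[ℝ] Y)
    (hD : ∀ x, D x = 0 → x = 0) (hdim : Module.finrank ℝ X = Module.finrank ℝ Y) :
    ∃ A : X ≃L[ℝ] Y, (A : X →L[ℝ] Y) = D := by
  have hinj : Function.Injective D.toLinearMap := by
    rw [← LinearMap.ker_eq_bot, LinearMap.ker_eq_bot']
    exact hD
  refine ⟨(LinearMap.linearEquivOfInjective D.toLinearMap hinj hdim).toContinuousLinearEquiv, ?_⟩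
  ext x
  rfl

/-- a smooth parametrisation of a regular hypersurface which is transversal to the fibres -/
lemma param {r q : ℕ} {w : V r × V (q + 1) → ℝ} (hw : ContDiff ℝ ∞ w) {p : V r × V (q + 1)}
    (hp : w p = 0) (hd : dy w p ≠ 0) :
    ∃ c : V r × V q → V (q + 1), ContDiff ℝ ∞ c ∧
      ∀ᶠ z in 𝓝 p, w z = 0 → ∃ y : V q, z.2 = c (z.1, y) := by
  obtain ⟨i, hi⟩ : ∃ i, dy w p (Pi.single i 1) ≠ 0 := by
    by_contra hcon
    push Not at hcon
    apply hd
    ext v
    have h1 : v = ∑ i, v i • (Pi.single i (1 : ℝ) : V (q + 1)) := by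
      ext j
      simp [Finset.sum_apply, Pi.single_apply]
    rw [h1, map_sum]
    simp only [map_smul, hcon, smul_zero, Finset.sum_const_zero]
    rfl
  let L : V (q + 1) →L[ℝ] V q := ContinuousLinearMap.pi fun j =>
    ContinuousLinearMap.proj (R := ℝ) (φ := fun _ : Fin (q + 1) => ℝ) (i.succAbove j)
  have hL : ∀ v j, L v j = v (i.succAbove j) := fun v j => rfl
  let e : V r × V (q + 1) → V r × (V q × ℝ) := fun z => (z.1, L z.2, w z)
  have he : ContDiff ℝ ∞ e :=
    contDiff_fst.prodMk ((L.contDiff.comp contDiff_snd).prodMk hw)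
  let D : V r × V (q + 1) →L[ℝ] V r × (V q × ℝ) :=
    (ContinuousLinearMap.fst ℝ _ _).prod
      ((L.comp (ContinuousLinearMap.snd ℝ _ _)).prod (fderiv ℝ w p))
  have hD : HasFDerivAt e D p :=
    hasFDerivAt_fst.prodMk ((L.hasFDerivAt.comp p hasFDerivAt_snd).prodMk
      (hw.differentiable (by simp) p).hasFDerivAt)
  obtain ⟨A, hA⟩ := exists_equiv D (fun z hz => by
    have h1 : z.1 = 0 := congrArg Prod.fst hz
    have h2 : L z.2 = 0 := congrArg (fun x => x.2.1) hz
    have h3 : fderiv ℝ w p z = 0 := congrArg (fun x => x.2.2) hz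
    have h4 : z.2 = z.2 i • (Pi.single i (1 : ℝ) : V (q + 1)) := by
      ext j
      rcases eq_or_ne j i with rfl | hj
      · simp
      · obtain ⟨j', rfl⟩ := Fin.exists_succAbove_eq hj
        have h5 := congrFun h2 j'
        rw [hL] at h5
        rw [h5]
        simp
    have h5 : dy w p z.2 = 0 := by
      rw [dy_apply, ← h1]
      exact h3
    rw [h4, map_smul, smul_eq_mul, mul_eq_zero] at h5
    have h6 : z.2 i = 0 := h5.resolve_right hi
    rw [h6, zero_smul] at h4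
    exact Prod.ext h1 h4) (by simp)
  obtain ⟨ψ, hψ0, hψ1, hψ2⟩ := inv_germ e p (Eventually.of_forall fun z => he.contDiffAt) A
    (by rw [hA]; exact hD)
  let j : V r × V q → V r × (V q × ℝ) := fun u => (u.1, u.2, 0)
  have hj : ContDiff ℝ ∞ j := contDiff_fst.prodMk (contDiff_snd.prodMk contDiff_const)
  have hj0 : j (p.1, L p.2) = e p := by
    simp only [j, e, hp]
  have h1 : ∀ᶠ u in 𝓝 (p.1, L p.2), ContDiffAt ℝ ∞ (fun u => (ψ (j u)).2) u := by
    have h2 : Tendsto j (𝓝 (p.1, L p.2)) (𝓝 (e p)) := by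
      have := hj.continuous.tendsto (p.1, L p.2)
      rwa [hj0] at this
    filter_upwards [h2.eventually hψ1] with u hu
    exact contDiffAt_snd.comp u (hu.1.comp u hj.contDiffAt)
  obtain ⟨Ψ, hΨ, hΨe⟩ := exists_extension h1
  refine ⟨Ψ, hΨ, ?_⟩
  have h3 : Tendsto (fun z : V r × V (q + 1) => (z.1, L z.2)) (𝓝 p) (𝓝 (p.1, L p.2)) := by
    have : Continuous fun z : V r × V (q + 1) => (z.1, L z.2) := by fun_prop
    exact this.tendsto p
  filter_upwards [hψ2, h3.eventually hΨe] with z h4 h5 h6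
  refine ⟨L z.2, ?_⟩
  rw [h5]
  have h7 : j (z.1, L z.2) = e z := by simp only [j, e, h6]
  rw [h7, h4]

/-- the flat points -/
lemma dim_flat {r q : ℕ} {F : Type} [NormedAddCommGroup F] [NormedSpace ℝ F]
    {g : V r × V q → F} (hg : ContDiff ℝ ∞ g) :
    dimH (g '' {z | ∀ k, z ∈ Flat r q k (dy g)}) ≤ r := by
  borelize F
  set S : Set (V r × V q) := {z | ∀ k, z ∈ Flat r q k (dy g)} with hS
  have hgd : Differentiable ℝ g := hg.differentiable (by simp)
  refine dimH_image_le_of_local fun p _ => ⟨closedBall p (1 / 2),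
    closedBall_mem_nhds p (by norm_num), ?_⟩
  refine ENNReal.le_of_forall_pos_le_add fun ε hε _ => ?_
  obtain ⟨k, hk⟩ := exists_nat_ge (((q : ℝ) + 1) / ε)
  have hε' : (0 : ℝ) < ε := hε
  rw [div_le_iff₀ hε'] at hk
  obtain ⟨C, hC, hC2⟩ := taylor p k (dy g) (dy_contDiff hg)
  -- Lipschitz bound on the cube
  obtain ⟨A, hA⟩ := (isCompact_closedBall p (1 / 2 : ℝ)).exists_bound_of_continuousOn
    (f := fderiv ℝ g) (hg.continuous_fderiv (by simp)).continuousOn
  have hA0 : 0 ≤ A := (norm_nonneg _).trans (hA p (mem_closedBall_self (by norm_num)))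
  have hLip : ∀ z ∈ closedBall p (1 / 2), ∀ z' ∈ closedBall p (1 / 2),
      ‖g z - g z'‖ ≤ A * ‖z - z'‖ := fun z hz z' hz' =>
    (convex_closedBall p (1 / 2)).norm_image_sub_le_of_norm_fderiv_le (𝕜 := ℝ)
      (fun x _ => hgd x) hA hz' hz
  have key : ∀ z ∈ S ∩ closedBall p (1 / 2), ∀ z' ∈ S ∩ closedBall p (1 / 2),
      dist (g z) (g z') ≤ (A + C) * (dist z.1 z'.1 + dist z.2 z'.2 ^ (k + 1)) := by
    intro z hz z' hz'
    have hzb := hz.2
    have hzb' := hz'.2
    rw [← closedBall_prod_same] at hzb hzb'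
    have hm : (z'.1, z.2) ∈ closedBall p (1 / 2) := by
      rw [← closedBall_prod_same]
      exact ⟨hzb'.1, hzb.2⟩
    have h1 : ‖g z - g (z'.1, z.2)‖ ≤ A * dist z.1 z'.1 := by
      refine (hLip z hz.2 _ hm).trans ?_
      gcongr
      rw [dist_eq_norm, Prod.norm_def]
      simp
    have h2 : ‖g (z'.1, z.2) - g (z'.1, z'.2)‖ ≤ C * dist z.2 z'.2 ^ (k + 1) := by
      have h3 : Differentiable ℝ fun y => g (z'.1, y) := fun y =>
        (slice_hasFDerivAt hgd z'.1 y).differentiableAt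
      have h4 := mvt_pow h3 (convex_closedBall p.2 (1 / 2)) hzb'.2 hC (n := k) (fun y hy => by
        rw [(slice_hasFDerivAt hgd z'.1 y).fderiv]
        exact hC2 z' hz'.2 (hz'.1 k) y hy) z.2 hzb.2
      rw [dist_eq_norm]
      exact h4
    have h5 : (0 : ℝ) ≤ dist z.2 z'.2 ^ (k + 1) := by positivity
    have h6 : (0 : ℝ) ≤ dist z.1 z'.1 := dist_nonneg
    calc dist (g z) (g z') = ‖(g z - g (z'.1, z.2)) + (g (z'.1, z.2) - g (z'.1, z'.2))‖ := by
          rw [dist_eq_norm, sub_add_sub_cancel]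
      _ ≤ A * dist z.1 z'.1 + C * dist z.2 z'.2 ^ (k + 1) := (norm_add_le _ _).trans (by gcongr)
      _ ≤ _ := by nlinarith
  have h0 := cover p (S ∩ closedBall p (1 / 2)) inter_subset_right g (A + C) (by positivity) k
    key ((r : ℝ) + ε) (by positivity) (by nlinarith)
  have h7 : Measure.hausdorffMeasure (((r : ℝ≥0) + ε : ℝ≥0) : ℝ)
      (g '' (S ∩ closedBall p (1 / 2))) ≠ ⊤ := by
    have : ((((r : ℝ≥0) + ε : ℝ≥0)) : ℝ) = (r : ℝ) + ε := by push_cast; rfl
    rw [this, h0]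
    exact ENNReal.zero_ne_top
  have h8 := dimH_le_of_hausdorffMeasure_ne_top h7
  push_cast at h8
  exact h8

/-- the points at which the vertical derivative vanishes -/
theorem claim (r q : ℕ) : ∀ {F : Type} [NormedAddCommGroup F] [NormedSpace ℝ F]
    (g : V r × V q → F), ContDiff ℝ ∞ g → dimH (g '' {z | dy g z = 0}) ≤ r := by
  induction q with
  | zero =>
    intro F _ _ g hg
    refine (dimH_mono (image_subset_range _ _)).trans
      ((ContDiff.dimH_range_le (hg.of_le (by simp))).trans ?_)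
    simp
  | succ q ih =>
    intro F _ _ g hg
    have hgd : Differentiable ℝ g := hg.differentiable (by simp)
    have hstep : ∀ j : ℕ, dimH (g '' (Flat r (q + 1) (j + 1) (dy g) \
        Flat r (q + 1) (j + 2) (dy g))) ≤ r := by
      intro j
      refine dimH_image_le_of_local fun p hp => ?_
      obtain ⟨w, hw1, hw2, hw3⟩ := stratum j (dy g) p (dy_contDiff hg) hp.1 hp.2
      obtain ⟨c, hc, hc2⟩ := param hw1 (hw3 p hp.1) hw2
      refine ⟨_, hc2, ?_⟩
      have hG : ContDiff ℝ ∞ fun u : V r × V q => g (u.1, c u) :=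
        hg.comp (contDiff_fst.prodMk hc)
      refine (dimH_mono ?_).trans (ih (fun u : V r × V q => g (u.1, c u)) hG)
      rintro _ ⟨z, ⟨hz1, hz2⟩, rfl⟩
      obtain ⟨y, hy⟩ := hz2 (hw3 z hz1.1)
      refine ⟨(z.1, y), ?_, by simp only [← hy]⟩
      have h1 : dy g z = 0 := hz1.1.1
      have h2 : HasFDerivAt (fun u : V r × V q => g (u.1, c u))
          ((fderiv ℝ g z).comp ((ContinuousLinearMap.fst ℝ (V r) (V q)).prod
            (fderiv ℝ c (z.1, y)))) (z.1, y) := by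
        have h3 : HasFDerivAt (fun u : V r × V q => (u.1, c u))
            ((ContinuousLinearMap.fst ℝ (V r) (V q)).prod (fderiv ℝ c (z.1, y))) (z.1, y) :=
          hasFDerivAt_fst.prodMk (hc.differentiable (by simp) _).hasFDerivAt
        have h4 : HasFDerivAt g (fderiv ℝ g z) ((fun u : V r × V q => (u.1, c u)) (z.1, y)) := by
          have : (fun u : V r × V q => (u.1, c u)) (z.1, y) = z := by
            simp only [← hy]
          rw [this]
          exact (hgd z).hasFDerivAt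
        exact h4.comp (z.1, y) h3
      rw [mem_ofPred_eq]
      ext v
      rw [dy_apply, h2.fderiv]
      change fderiv ℝ g z (0, fderiv ℝ c (z.1, y) (0, v)) = 0
      rw [← dy_apply, h1]
      rfl
    have hcov : g '' {z | dy g z = 0} ⊆ g '' {z | ∀ k, z ∈ Flat r (q + 1) k (dy g)} ∪
        ⋃ j : ℕ, g '' (Flat r (q + 1) (j + 1) (dy g) \ Flat r (q + 1) (j + 2) (dy g)) := by
      rintro _ ⟨z, hz, rfl⟩
      by_cases h : ∀ k, z ∈ Flat r (q + 1) k (dy g)
      · exact Or.inl ⟨z, h, rfl⟩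
      · right
        classical
        push Not at h
        obtain ⟨k, hk, hmin⟩ : ∃ k, z ∉ Flat r (q + 1) k (dy g) ∧
            ∀ m < k, z ∈ Flat r (q + 1) m (dy g) :=
          ⟨Nat.find h, Nat.find_spec h, fun m hm => by
            have := Nat.find_min h hm
            push Not at this
            exact this⟩
        have hk0 : k ≠ 0 := by
          rintro rfl
          exact hk (mem_univ z)
        have hk1 : k ≠ 1 := by
          rintro rfl
          exact hk ⟨hz, mem_univ z⟩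
        obtain ⟨j, rfl⟩ : ∃ j, k = j + 2 := ⟨k - 2, by omega⟩
        exact mem_iUnion.2 ⟨j, z, ⟨hmin (j + 1) (by omega), hk⟩, rfl⟩
    refine (dimH_mono hcov).trans ?_
    rw [dimH_union, dimH_iUnion]
    exact max_le (dim_flat hg) (iSup_le hstep)

/-- the points of rank exactly `r` -/
theorem dim_rank {m n : ℕ} (r : ℕ) {U : Set (E m)} {f : E m → E n} (hU : IsOpen U)
    (hf : ContDiffOn ℝ ∞ f U) :
    dimH (f '' {x | x ∈ U ∧ Module.finrank ℝ (LinearMap.range (fderiv ℝ f x).toLinearMap) = r})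
      ≤ r := by
  refine dimH_image_le_of_local fun x₀ hx₀ => ?_
  obtain ⟨hxU, hxr⟩ := hx₀
  have hfs : ∀ᶠ x in 𝓝 x₀, ContDiffAt ℝ ∞ f x := by
    filter_upwards [hU.mem_nhds hxU] with y hy
    exact (hf y hy).contDiffAt (hU.mem_nhds hy)
  set D₀ : E m →ₗ[ℝ] E n := (fderiv ℝ f x₀).toLinearMap with hD₀
  -- the projection `P`
  have hdR : Module.finrank ℝ (LinearMap.range D₀) = Module.finrank ℝ (V r) := by
    rw [hxr]; simp
  let ι : LinearMap.range D₀ ≃ₗ[ℝ] V r := LinearEquiv.ofFinrankEq _ _ hdR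
  obtain ⟨P', hP'⟩ := LinearMap.exists_extend (ι : LinearMap.range D₀ →ₗ[ℝ] V r)
  let P : E n →L[ℝ] V r := LinearMap.toContinuousLinearMap P'
  have hP : ∀ y : LinearMap.range D₀, P y = ι y := fun y => by
    have := congrArg (fun T : LinearMap.range D₀ →ₗ[ℝ] V r => T y) hP'
    exact this
  have hPD : ∀ v, P (D₀ v) = 0 → D₀ v = 0 := by
    intro v hv
    have h1 := hP ⟨D₀ v, LinearMap.mem_range_self D₀ v⟩
    simp only at h1
    rw [hv] at h1
    have h2 := ι.map_eq_zero_iff.1 h1.symm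
    exact congrArg Subtype.val h2
  -- the complementary coordinates `Q`
  obtain ⟨q, hq⟩ : ∃ q, Module.finrank ℝ (LinearMap.ker D₀) = q := ⟨_, rfl⟩
  have hrq : r + q = m := by
    have := LinearMap.finrank_range_add_finrank_ker D₀
    rw [hxr, hq] at this
    simpa using this
  have hdK : Module.finrank ℝ (LinearMap.ker D₀) = Module.finrank ℝ (V q) := by
    rw [hq]; simp
  let κ : LinearMap.ker D₀ ≃ₗ[ℝ] V q := LinearEquiv.ofFinrankEq _ _ hdK
  obtain ⟨Q', hQ'⟩ := LinearMap.exists_extend (κ : LinearMap.ker D₀ →ₗ[ℝ] V q)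
  let Q : E m →L[ℝ] V q := LinearMap.toContinuousLinearMap Q'
  have hQ : ∀ y : LinearMap.ker D₀, Q y = κ y := fun y => by
    have := congrArg (fun T : LinearMap.ker D₀ →ₗ[ℝ] V q => T y) hQ'
    exact this
  let e : E m → V r × V q := fun x => (P (f x), Q x)
  have he : ∀ᶠ x in 𝓝 x₀, ContDiffAt ℝ ∞ e x := by
    filter_upwards [hfs] with x hx
    exact (P.contDiff.contDiffAt.comp x hx).prodMk Q.contDiff.contDiffAt
  have hfd : HasFDerivAt f (fderiv ℝ f x₀) x₀ :=
    (hfs.self_of_nhds.differentiableAt (by simp)).hasFDerivAt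
  have hDe : HasFDerivAt e ((P.comp (fderiv ℝ f x₀)).prod Q) x₀ :=
    (P.hasFDerivAt.comp x₀ hfd).prodMk Q.hasFDerivAt
  obtain ⟨A, hA⟩ := exists_equiv ((P.comp (fderiv ℝ f x₀)).prod Q) (fun v hv => by
    have h1 : P (D₀ v) = 0 := congrArg Prod.fst hv
    have h2 : Q v = 0 := congrArg Prod.snd hv
    have h3 : v ∈ LinearMap.ker D₀ := hPD v h1
    have h4 := hQ ⟨v, h3⟩
    simp only at h4
    rw [h2] at h4
    exact congrArg Subtype.val (κ.map_eq_zero_iff.1 h4.symm)) (by simp [hrq])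
  obtain ⟨ψ, hψ0, hψ1, hψ2⟩ := inv_germ e x₀ he A (by rw [hA]; exact hDe)
  have hψt : Tendsto ψ (𝓝 (e x₀)) (𝓝 x₀) := by
    have := hψ1.self_of_nhds.1.continuousAt
    rw [ContinuousAt, hψ0] at this
    exact this
  have h1 : ∀ᶠ u in 𝓝 (e x₀), ContDiffAt ℝ ∞ (fun u => f (ψ u)) u := by
    filter_upwards [hψ1, hψt.eventually hfs] with u hu hu2
    exact hu2.comp u hu.1
  obtain ⟨g, hg, hge⟩ := exists_extension h1
  have het : Tendsto e (𝓝 x₀) (𝓝 (e x₀)) := he.self_of_nhds.continuousAt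
  have hnear : ∀ᶠ x in 𝓝 x₀, ψ (e x) = x ∧ ContDiffAt ℝ ∞ f x ∧
      (g =ᶠ[𝓝 (e x)] fun u => f (ψ u)) ∧
      (∀ᶠ u in 𝓝 (e x), ContDiffAt ℝ ∞ ψ u ∧ e (ψ u) = u) := by
    filter_upwards [hψ2, hfs, het.eventually hge.eventuallyEq_nhds,
      het.eventually (eventually_eventually_nhds.2 hψ1)] with x a1 a2 a3 a4
    exact ⟨a1, a2, a3, a4⟩
  refine ⟨_, hnear, ?_⟩
  refine (dimH_mono ?_).trans (claim r q g hg)
  rintro _ ⟨x, ⟨⟨hxU', hxr'⟩, ⟨a1, a2, a3, a4⟩⟩, rfl⟩
  refine ⟨e x, ?_, by rw [a3.self_of_nhds]; simp only [a1]⟩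
  rw [mem_ofPred_eq]
  have hψd : HasFDerivAt ψ (fderiv ℝ ψ (e x)) (e x) :=
    (a4.self_of_nhds.1.differentiableAt (by simp)).hasFDerivAt
  have hfx : HasFDerivAt f (fderiv ℝ f x) (ψ (e x)) := by
    rw [a1]
    exact (a2.differentiableAt (by simp)).hasFDerivAt
  have hgx : HasFDerivAt g ((fderiv ℝ f x).comp (fderiv ℝ ψ (e x))) (e x) :=
    (hfx.comp (e x) hψd).congr_of_eventuallyEq a3
  -- `P ∘ f ∘ ψ` is the first projection
  have hPf : HasFDerivAt (fun u : V r × V q => u.1)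
      (P.comp ((fderiv ℝ f x).comp (fderiv ℝ ψ (e x)))) (e x) := by
    refine (P.hasFDerivAt.comp (e x) (hfx.comp (e x) hψd)).congr_of_eventuallyEq ?_
    filter_upwards [a4] with u hu
    exact (congrArg Prod.fst hu.2).symm
  have hPf2 : P.comp ((fderiv ℝ f x).comp (fderiv ℝ ψ (e x))) =
      ContinuousLinearMap.fst ℝ (V r) (V q) := hPf.unique hasFDerivAt_fst
  have hPf3 : ∀ u, P (fderiv ℝ f x (fderiv ℝ ψ (e x) u)) = u.1 := fun u => by
    have := congrArg (fun T : V r × V q →L[ℝ] V r => T u) hPf2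
    exact this
  -- `P` is injective on the range of the derivative at `x`
  set R := LinearMap.range (fderiv ℝ f x).toLinearMap with hR
  let φ : R →ₗ[ℝ] V r := P.toLinearMap.domRestrict R
  have hφs : Function.Surjective φ := fun t =>
    ⟨⟨fderiv ℝ f x (fderiv ℝ ψ (e x) (t, 0)), LinearMap.mem_range_self _ _⟩, hPf3 (t, 0)⟩
  have hφi : Function.Injective φ :=
    (LinearMap.injective_iff_surjective_of_finrank_eq_finrank (by rw [hxr']; simp)).2 hφs
  ext v
  rw [dy_apply, hgx.fderiv]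
  have h2 : P (fderiv ℝ f x (fderiv ℝ ψ (e x) (0, v))) = 0 := hPf3 (0, v)
  have h3 : φ ⟨fderiv ℝ f x (fderiv ℝ ψ (e x) (0, v)), LinearMap.mem_range_self _ _⟩ = φ 0 := by
    rw [map_zero]
    exact h2
  have h4 := congrArg Subtype.val (hφi h3)
  exact congrArg (fun y : E n => y _) h4

/-- **SQ/SARDR** -/
theorem main : S_SARDR := by
  intro ν m n U f hU hf s hs
  have h1 : f '' {x | x ∈ U ∧ Module.finrank ℝ (LinearMap.range (fderiv ℝ f x).toLinearMap) ≤ ν} ⊆
      ⋃ r : Fin (ν + 1), f '' {x | x ∈ U ∧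
        Module.finrank ℝ (LinearMap.range (fderiv ℝ f x).toLinearMap) = r} := by
    rintro _ ⟨x, ⟨hx, hr⟩, rfl⟩
    exact mem_iUnion.2 ⟨⟨_, Nat.lt_succ_of_le hr⟩, x, ⟨hx, rfl⟩, rfl⟩
  have h2 : dimH (f '' {x | x ∈ U ∧
      Module.finrank ℝ (LinearMap.range (fderiv ℝ f x).toLinearMap) ≤ ν}) ≤ ν := by
    refine (dimH_mono h1).trans ?_
    rw [dimH_iUnion]
    refine iSup_le fun r => (dim_rank r hU hf).trans ?_
    exact_mod_cast Nat.lt_succ_iff.1 r.2
  have hs0 : 0 ≤ s := (Nat.cast_nonneg ν).trans hs.le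
  have h3 : dimH (f '' {x | x ∈ U ∧
      Module.finrank ℝ (LinearMap.range (fderiv ℝ f x).toLinearMap) ≤ ν}) <
        (s.toNNReal : ENNReal) := by
    refine lt_of_le_of_lt h2 ?_
    have : ((ν : ℝ≥0) : ENNReal) < (s.toNNReal : ENNReal) := by
      rw [ENNReal.coe_lt_coe, ← NNReal.coe_lt_coe, Real.coe_toNNReal s hs0]
      exact_mod_cast hs
    exact_mod_cast this
  have h4 := hausdorffMeasure_of_dimH_lt h3
  rwa [Real.coe_toNNReal s hs0] at h4

end

end Pool.Agent.N550.SQ.Sardr
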