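import Pool.Agent.N550.CQ.Stm2

/-!
# Project SQ: statements

Homeomorphisms onto closed simply connected 4-manifolds which have (almost) no points of rank two.
-/

set_option autoImplicit false

open Set Filter Topology Metric Function MeasureTheory
open scoped Manifold ContDiff

noncomputable section

namespace Pool.Agent.N550.SQ

open Pool.Agent.Y522 Pool.Agent.N550.KH Pool.Agent.N550.CQ

/-- a subset of a manifold with `s`-dimensional Hausdorff measure zero, in the preferred charts -/
def NullCS (s : ℝ) (n : ℕ) {N : Type} [TopologicalSpace N] [ChartedSpace (E n) N] (B : Set N) :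
    Prop :=
  ∀ x₀ : N, Measure.hausdorffMeasure s
    (chartAt (E n) x₀ '' ((chartAt (E n) x₀).source ∩ B) : Set (E n)) = 0

/-- a subset of a manifold with `s`-dimensional Hausdorff measure zero, in all the open
parametrizations by `E n` -/
def NullHS (s : ℝ) (n : ℕ) {N : Type} [TopologicalSpace N] [ChartedSpace (E n) N] (B : Set N) :
    Prop :=
  ∀ h : E n → N, Injective h → (∀ z, LD n h z) → Measure.hausdorffMeasure s (h ⁻¹' B : Set (E n)) = 0

/-- `N` is the union of a compact set `K`, which can be compressed by diffeomorphisms into every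
neighbourhood of a finite union of smooth images of 2-discs, and an open cell (every closed simply
connected 4-manifold has such a structure: the handles of index at most two, and a thickened graph
which is isotopic into a ball) -/
structure SpineTwo (N : Type) [TopologicalSpace N] [ChartedSpace (E 4) N] (a : ℕ)
    (j : Fin a → E 2 → N) (K : Set N) (c : E 4 → N) : Prop where
  j_smooth : ∀ i, ContMDiff (𝓡 2) (𝓡 4) ∞ (j i)
  K_cmp : ∀ O : Set N, IsOpen O → (⋃ i, j i '' closedBall 0 1) ⊆ O →
    ∃ κ : N → N, IsDf 4 κ ∧ K ⊆ κ '' O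
  c_inj : Injective c
  c_ld : ∀ z, LD 4 c z
  c_range : Kᶜ ⊆ range c

/-- The Sard-Federer theorem for smooth maps: the critical values of rank at most `ν` have Hausdorff
dimension at most `ν`. -/
def S_SARDR : Prop :=
  ∀ (ν m n : ℕ) (U : Set (E m)) (f : E m → E n), IsOpen U → ContDiffOn ℝ ∞ f U →
    ∀ s : ℝ, (ν : ℝ) < s → Measure.hausdorffMeasure s
      (f '' {x | x ∈ U ∧ Module.finrank ℝ (LinearMap.range (fderiv ℝ f x).toLinearMap) ≤ ν}) = 0

/-- The same for manifolds. -/
def S_RKR : Prop :=
  ∀ (ν n : ℕ) (M N : Type) [TopologicalSpace M] [SecondCountableTopology M]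
    [ChartedSpace (E n) M] [IsManifold (𝓡 n) ∞ M] [TopologicalSpace N] [ChartedSpace (E n) N]
    [IsManifold (𝓡 n) ∞ N] (f : M → N) (s : ℝ), Continuous f → (ν : ℝ) < s →
    NullHS s n (f '' {x | x ∉ Bad n f ∧ rk n f x ≤ ν})

/-- The two notions of null sets. -/
def S_NULLS : Prop :=
  ∀ (s : ℝ) (n : ℕ) (N : Type) [TopologicalSpace N] [ChartedSpace (E n) N]
    [IsManifold (𝓡 n) ∞ N] (B : Set N), 0 ≤ s → NullCS s n B → NullHS s n B

/-- Almost all translates of a smooth 2-disc in the 4-space are disjoint from a given set of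
two-dimensional Hausdorff measure zero. -/
def S_DIFF : Prop :=
  ∀ (B : Set (E 4)) (D : Set (E 2)) (j : E 2 → E 4), Measure.hausdorffMeasure 2 B = 0 →
    (∀ s ∈ D, ContDiffAt ℝ 1 j s) → volume {v : E 4 | ∃ s ∈ D, j s + v ∈ B} = 0

/-- General position: smooth 2-discs can be moved off closed sets of two-dimensional Hausdorff
measure zero. -/
def S_GP : Prop :=
  ∀ (N : Type) [TopologicalSpace N] [CompactSpace N] [T2Space N] [ChartedSpace (E 4) N]
    [IsManifold (𝓡 4) ∞ N] (a : ℕ) (j : Fin a → E 2 → N) (B : Set N),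
    (∀ i, ContMDiff (𝓡 2) (𝓡 4) ∞ (j i)) → IsClosed B → NullHS 2 4 B →
    ∃ ψ : N → N, IsDf 4 ψ ∧ ∀ i, ∀ s ∈ closedBall (0 : E 2) 1, ψ (j i s) ∉ B

/-- Closed sets of two-dimensional Hausdorff measure zero lie in an open cell. -/
def S_ENG2 : Prop :=
  ∀ (N : Type) [TopologicalSpace N] [CompactSpace N] [T2Space N] [ChartedSpace (E 4) N]
    [IsManifold (𝓡 4) ∞ N] (a : ℕ) (j : Fin a → E 2 → N) (K : Set N) (c : E 4 → N),
    SpineTwo N a j K c → ∀ B : Set N, IsClosed B → NullHS 2 4 B →
    ∃ c' : E 4 → N, Injective c' ∧ (∀ z, LD 4 c' z) ∧ B ⊆ range c'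

end Pool.Agent.N550.SQ
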